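import Pool.Agent.Helper71.PR.Goals

/-!
Packet PR-LFD: discrete subgroups of `SL_n(ℝ)` are locally finite.
-/

set_option autoImplicit false

namespace Pool.Agent.Helper37.PR

open Matrix Filter Topology Pool.Agent.Helper71.PR

theorem lfd : G_LFD := by
  intro n Γ hΓ R
  have hd : IsDiscrete (Γ : Set (SLn n)) := isDiscrete_iff_discreteTopology.mpr hΓ
  have h1 := Subgroup.tendsto_coe_cofinite_of_discrete Γ hd
  have hemb : Topology.IsClosedEmbedding (fun g : SLn n => (g.1 : Mt n)) := by
    have hc : IsClosed {A : Mt n | A.det = 1} :=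
      isClosed_singleton.preimage (continuous_id.matrix_det)
    exact hc.isClosedEmbedding_subtypeVal
  have hK : IsCompact {A : Mt n | ∀ i j, A i j ∈ Set.Icc (-R) R} := by
    have h2 : IsCompact (Set.pi Set.univ fun _ : Fin n => Set.pi Set.univ
        fun _ : Fin n => Set.Icc (-R) R) :=
      isCompact_univ_pi fun _ => isCompact_univ_pi fun _ => isCompact_Icc
    have e : {A : Mt n | ∀ i j, A i j ∈ Set.Icc (-R) R} = (Set.pi Set.univ fun _ : Fin n =>
        Set.pi Set.univ fun _ : Fin n => Set.Icc (-R) R) := by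
      ext A
      constructor
      · intro h i _ j _
        exact h i j
      · intro h i j
        exact h i trivial j trivial
    rw [e]
    exact h2
  have hK' : IsCompact ((fun g : SLn n => (g.1 : Mt n)) ⁻¹'
      {A : Mt n | ∀ i j, A i j ∈ Set.Icc (-R) R}) := hemb.isCompact_preimage hK
  have h3 : ((fun γ : Γ => (γ : SLn n)) ⁻¹' ((fun g : SLn n => (g.1 : Mt n)) ⁻¹'
      {A : Mt n | ∀ i j, A i j ∈ Set.Icc (-R) R})ᶜ)ᶜ.Finite :=
    h1 (hK'.compl_mem_cocompact)
  refine (h3.image (fun γ : Γ => (γ : SLn n))).subset ?_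
  rintro γ ⟨hγ, hb⟩
  refine ⟨⟨γ, hγ⟩, ?_, rfl⟩
  intro h
  exact h fun i j => abs_le.1 (hb i j)

end Pool.Agent.Helper37.PR
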